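import Pool.Agent.R562.PR.OneRes

/-!
# Most short advice strings are good for all primes with `n` digits
-/

set_option autoImplicit false

namespace Pool.Agent.R562.PR

open Finset Pool.Agent.NPC Pool.Agent.H595R2.PR Pool.Agent.NPC.H595POL Pool.Agent.NPC.R562POL

/-- the number in the `j`-th block of length `N` of `w` -/
def num (N : ℕ) (w : List Bool) (j : ℕ) : ℕ :=
  valB ((List.range N).map fun i => w.getD (N * j + i) false)

/-- the intervals of length `k` which start at the numbers in the blocks of `w` -/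
def advList (N k : ℕ) (w : List Bool) : List ℕ :=
  (List.range w.length).flatMap fun j => interval (num N w j) k

theorem poly_num {α : Type} [TEnc α] {N j : α → ℕ} {w : α → List Bool} (hN : UPoly N)
    (hw : NPC.Poly w) (hj : NPC.Poly j) : NPC.Poly (fun a => num (N a) (w a) (j a)) := by
  refine NPC.Poly.valBits (NPC.Poly.map (l := fun a => List.range (N a))
    (F := fun a i => (w a).getD (N a * j a + i) false) hN.range ?_)
  exact NPC.Poly.getD (hw.comp (NPC.Poly.fst NPC.Poly.id))
    (NPC.Poly.add (NPC.Poly.mul (hN.toPoly.comp (NPC.Poly.fst NPC.Poly.id))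
      (hj.comp (NPC.Poly.fst NPC.Poly.id))) (NPC.Poly.snd NPC.Poly.id)) (NPC.Poly.const false)

theorem poly_advList {α : Type} [TEnc α] {N k : α → ℕ} {w : α → List Bool} (hN : UPoly N)
    (hk : UPoly k) (hw : NPC.Poly w) : NPC.Poly (fun a => advList (N a) (k a) (w a)) := by
  refine NPC.Poly.flatMap (l := fun a => List.range (w a).length)
    (F := fun a j => interval (num (N a) (w a) j) (k a)) (UPoly.length hw).range ?_
  exact poly_interval (poly_num (hN.comp (NPC.Poly.fst NPC.Poly.id))
    (hw.comp (NPC.Poly.fst NPC.Poly.id)) (NPC.Poly.snd NPC.Poly.id))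
    (hk.comp (NPC.Poly.fst NPC.Poly.id))

/-- `F` is computable in polynomial time from the pair of the binary digits of `p` and the bit
string `w`. -/
def PolyTimeListAdv (F : ℕ → List Bool → List ℕ) : Prop :=
  ∃ f : List Bool → List Bool, NPC.PolyTime f ∧
    ∀ (p : ℕ) (w : List Bool), f (NPC.pairBits (Nat.bits p) w) = NPC.bits (F p w)

theorem polyTimeListAdv_of {F : ℕ → List Bool → List ℕ}
    (hF : NPC.Poly (fun q : ℕ × List Bool => F q.1 q.2)) : PolyTimeListAdv F := by
  have h1 : NPC.Poly (fun y : List Bool => F (valB (unpair y).1) (unpair y).2) :=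
    hF.comp (NPC.Poly.pair (NPC.Poly.valBits (NPC.Poly.fst poly_unpair))
      (NPC.Poly.snd poly_unpair))
  exact ⟨_, polyTime_bits h1, fun p w => by simp only [unpair_pairBits, valB_bits]⟩

theorem length_flatMap_const {α β : Type} (l : List α) (f : α → List β) (c : ℕ)
    (h : ∀ a, (f a).length = c) : (l.flatMap f).length = l.length * c := by
  induction l with
  | nil => simp
  | cons a l ih => rw [List.flatMap_cons, List.length_append, ih, h, List.length_cons]; ring

theorem length_advList (N k : ℕ) (w : List Bool) : (advList N k w).length = w.length * k := by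
  unfold advList
  rw [length_flatMap_const _ _ k (fun a => by simp [interval]), List.length_range]

/-- numbers of bit vectors -/
theorem valB_inj : ∀ l l' : List Bool, l.length = l'.length → valB l = valB l' → l = l'
  | [], [], _, _ => rfl
  | b :: l, b' :: l', hl, h => by
      rw [valB_cons, valB_cons] at h
      have h1 : b = b' := by
        cases b <;> cases b' <;> simp at h ⊢ <;> omega
      subst h1
      have h2 : valB l = valB l' := by omega
      rw [valB_inj l l' (by simpa using hl) h2]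

theorem valB_lt_pow (l : List Bool) : valB l < 2 ^ l.length := by
  induction l with
  | nil => simp
  | cons b l ih =>
    rw [valB_cons, List.length_cons, pow_succ]
    cases b <;> simp <;> omega

section count

variable {p : ℕ} [hp : Fact p.Prime]

open Classical in
theorem card_blocks (N : ℕ) (T : Finset (ZMod p)) :
    #{x : Fin N → Bool | ((valB (List.ofFn x) : ℕ) : ZMod p) ∈ T} ≤ #T * (2 ^ N / p + 1) := by
  have h1 : #{x : Fin N → Bool | ((valB (List.ofFn x) : ℕ) : ZMod p) ∈ T} ≤
      #(T ×ˢ range (2 ^ N / p + 1)) := by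
    refine card_le_card_of_injOn
      (fun x => (((valB (List.ofFn x) : ℕ) : ZMod p), valB (List.ofFn x) / p)) ?_ ?_
    · intro x hx
      have hx' := (mem_filter.1 (mem_coe.1 hx)).2
      refine mem_coe.2 (mem_product.2 ⟨hx', ?_⟩)
      rw [mem_range]
      have h2 : valB (List.ofFn x) < 2 ^ N := by
        have := valB_lt_pow (List.ofFn x)
        rwa [List.length_ofFn] at this
      exact Nat.lt_succ_of_le (Nat.div_le_div_right h2.le)
    · intro x _ y _ hxy
      have h2 := (Prod.ext_iff.1 hxy).1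
      have h3 := (Prod.ext_iff.1 hxy).2
      simp only at h2 h3
      have h4 := (ZMod.natCast_eq_natCast_iff' _ _ p).1 h2
      have h5 : valB (List.ofFn x) = valB (List.ofFn y) := by
        rw [← Nat.div_add_mod (valB (List.ofFn x)) p, ← Nat.div_add_mod (valB (List.ofFn y)) p,
          h3, h4]
      exact List.ofFn_injective (valB_inj _ _ (by simp) h5)
  rwa [card_product, card_range] at h1

/-- the `j`-th block -/
theorem num_ofFn {t N : ℕ} (w : Fin (t * N) → Bool) (j : Fin t) :
    num N (List.ofFn w) j = valB (List.ofFn fun i : Fin N => w (finProdFinEquiv (j, i))) := by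
  unfold num
  congr 1
  apply List.ext_getElem
  · simp
  · intro i h1 h2
    have hi : i < N := by simpa using h1
    rw [List.getElem_map, List.getElem_range, List.getElem_ofFn]
    have hlt : N * (j : ℕ) + i < t * N := by
      have := (finProdFinEquiv (j, (⟨i, hi⟩ : Fin N))).2
      rw [finProdFinEquiv_apply_val] at this
      simp only at this
      omega
    rw [List.getD_eq_getElem _ _ (by rw [List.length_ofFn]; exact hlt), List.getElem_ofFn]
    congr 1
    apply Fin.ext
    rw [finProdFinEquiv_apply_val]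
    simp only
    omega

open Classical in
/-- few advice strings are bad for `p` and `l` -/
theorem card_badAdv {l k t N : ℕ} (hl : l.Prime) (hd : l ∣ p - 1) (hk2 : 2 ≤ k) (hk : k ≤ p)
    (hN : p ≤ 2 ^ N) :
    k ^ t * #{w : Fin (t * N) → Bool | ∀ j : Fin t,
      AllRes p l k ((num N (List.ofFn w) j : ℕ) : ZMod p)} ≤ 8 ^ t * 2 ^ (t * N) := by
  set T : Finset (ZMod p) := {u : ZMod p | AllRes p l k u} with hT
  have h1 : #{w : Fin (t * N) → Bool | ∀ j : Fin t,
      AllRes p l k ((num N (List.ofFn w) j : ℕ) : ZMod p)} ≤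
      #(Fintype.piFinset fun _ : Fin t =>
        ({x : Fin N → Bool | ((valB (List.ofFn x) : ℕ) : ZMod p) ∈ T} : Finset _)) := by
    refine card_le_card_of_injOn (fun w j i => w (finProdFinEquiv (j, i))) ?_ ?_
    · intro w hw
      have hw' := (mem_filter.1 (mem_coe.1 hw)).2
      refine mem_coe.2 (Fintype.mem_piFinset.2 fun j => ?_)
      rw [mem_filter]
      refine ⟨mem_univ _, ?_⟩
      rw [hT, mem_filter]
      refine ⟨mem_univ _, ?_⟩
      have := hw' j
      rwa [num_ofFn] at this
    · intro w _ w' _ h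
      funext a
      obtain ⟨⟨j, i⟩, rfl⟩ := finProdFinEquiv.surjective a
      exact congrFun (congrFun h j) i
  rw [Fintype.card_piFinset_const] at h1
  have h2 : k * #({x : Fin N → Bool | ((valB (List.ofFn x) : ℕ) : ZMod p) ∈ T} : Finset _) ≤
      8 * 2 ^ N := by
    have h3 := card_blocks N T
    have h4 := card_allRes hl hd hk2 hk
    calc k * #({x : Fin N → Bool | ((valB (List.ofFn x) : ℕ) : ZMod p) ∈ T} : Finset _)
        ≤ k * (#T * (2 ^ N / p + 1)) := Nat.mul_le_mul_left _ h3
      _ = (k * #T) * (2 ^ N / p + 1) := by ring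
      _ ≤ (4 * p) * (2 ^ N / p + 1) := Nat.mul_le_mul_right _ h4
      _ = 4 * (p * (2 ^ N / p) + p) := by ring
      _ ≤ 4 * (2 ^ N + 2 ^ N) := by
          refine Nat.mul_le_mul_left _ (Nat.add_le_add (Nat.mul_div_le _ _) hN)
      _ = 8 * 2 ^ N := by ring
  calc k ^ t * #{w : Fin (t * N) → Bool | ∀ j : Fin t,
      AllRes p l k ((num N (List.ofFn w) j : ℕ) : ZMod p)}
      ≤ k ^ t * #({x : Fin N → Bool | ((valB (List.ofFn x) : ℕ) : ZMod p) ∈ T} : Finset _) ^ t :=
        Nat.mul_le_mul_left _ h1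
    _ = (k * #({x : Fin N → Bool | ((valB (List.ofFn x) : ℕ) : ZMod p) ∈ T} : Finset _)) ^ t := by
        rw [mul_pow]
    _ ≤ (8 * 2 ^ N) ^ t := Nat.pow_le_pow_left h2 t
    _ = 8 ^ t * 2 ^ (t * N) := by rw [mul_pow, ← pow_mul, mul_comm N t]

open Classical in
/-- few advice strings are bad for `p` -/
theorem card_badAdv_prime {k t N : ℕ} (hk2 : 2 ≤ k) (hk : k ≤ p) (hN : p ≤ 2 ^ N) (hN0 : 0 < N) :
    k ^ t * #{w : Fin (t * N) → Bool | listGroup p (advList N k (List.ofFn w)) ≠ ⊤} ≤
      p.size * (8 ^ t * 2 ^ (t * N)) := by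
  have h1 : ({w : Fin (t * N) → Bool | listGroup p (advList N k (List.ofFn w)) ≠ ⊤} :
      Finset (Fin (t * N) → Bool)) ⊆
      ((p - 1).primeFactors.biUnion fun l =>
        {w : Fin (t * N) → Bool | ∀ j : Fin t,
          AllRes p l k ((num N (List.ofFn w) j : ℕ) : ZMod p)} :
        Finset (Fin (t * N) → Bool)) := by
    intro w hw
    have hw' : listGroup p (advList N k (List.ofFn w)) ≠ ⊤ := (mem_filter.1 hw).2
    obtain ⟨l, hl, hd, h⟩ := exists_allRes hw'
    rw [mem_biUnion]
    refine ⟨l, ?_, ?_⟩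
    · rw [Nat.mem_primeFactors]
      exact ⟨hl, hd, by have := hp.out.one_lt; omega⟩
    · rw [mem_filter]
      refine ⟨mem_univ _, fun j => allRes_of_interval fun x hx => h x ?_⟩
      unfold advList
      rw [List.mem_flatMap]
      refine ⟨j, List.mem_range.2 ?_, hx⟩
      rw [List.length_ofFn]
      have := j.2
      exact lt_of_lt_of_le this (Nat.le_mul_of_pos_right _ hN0)
  calc k ^ t * #{w : Fin (t * N) → Bool | listGroup p (advList N k (List.ofFn w)) ≠ ⊤}
      ≤ k ^ t * ∑ l ∈ (p - 1).primeFactors, #{w : Fin (t * N) → Bool | ∀ j : Fin t,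
          AllRes p l k ((num N (List.ofFn w) j : ℕ) : ZMod p)} := by
        refine Nat.mul_le_mul_left _ (le_trans (card_le_card ?_) card_biUnion_le)
        exact h1
    _ = ∑ l ∈ (p - 1).primeFactors, k ^ t * #{w : Fin (t * N) → Bool | ∀ j : Fin t,
          AllRes p l k ((num N (List.ofFn w) j : ℕ) : ZMod p)} := by rw [mul_sum]
    _ ≤ ∑ l ∈ (p - 1).primeFactors, 8 ^ t * 2 ^ (t * N) := by
        refine sum_le_sum fun l hl => ?_
        rw [Nat.mem_primeFactors] at hl
        exact card_badAdv hl.1 hl.2.1 hk2 hk hN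
    _ = #(p - 1).primeFactors * (8 ^ t * 2 ^ (t * N)) := by rw [sum_const, smul_eq_mul]
    _ ≤ p.size * (8 ^ t * 2 ^ (t * N)) := Nat.mul_le_mul_right _ card_primeFactors_sub_one

end count

/-- the number of blocks -/
def nb (D n : ℕ) : ℕ := n / (D * Nat.log 2 n) + 1

/-- the exponents fit -/
theorem nb_fits {D n : ℕ} (hD : 1 ≤ D) (hn : 2 ≤ n) :
    8 ^ n * 8 ^ nb D n ≤ (n ^ (3 * D + 3)) ^ nb D n := by
  set t := nb D n with ht
  set L := Nat.log 2 n with hL
  have hL1 : 1 ≤ L := Nat.log_pos (by norm_num) hn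
  have h1 : 2 ^ L ≤ n := Nat.pow_log_le_self 2 (by omega)
  have h2 : n ≤ D * L * t := by
    have h3 : 0 < D * L := Nat.mul_pos hD hL1
    have h4 := Nat.lt_mul_div_succ n h3
    exact h4.le
  have h3 : 8 ^ n ≤ (n ^ (3 * D)) ^ t := by
    calc 8 ^ n = 2 ^ (3 * n) := by rw [pow_mul]; norm_num
      _ ≤ 2 ^ (3 * (D * L * t)) := Nat.pow_le_pow_right (by norm_num) (Nat.mul_le_mul_left _ h2)
      _ = ((2 ^ L) ^ (3 * D)) ^ t := by rw [← pow_mul, ← pow_mul]; congr 1; ring
      _ ≤ (n ^ (3 * D)) ^ t := Nat.pow_le_pow_left (Nat.pow_le_pow_left h1 _) _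
  have h4 : 8 ^ t ≤ (n ^ 3) ^ t := by
    refine Nat.pow_le_pow_left ?_ t
    calc 8 = 2 ^ 3 := by norm_num
      _ ≤ n ^ 3 := Nat.pow_le_pow_left hn 3
  calc 8 ^ n * 8 ^ t ≤ (n ^ (3 * D)) ^ t * (n ^ 3) ^ t := Nat.mul_le_mul h3 h4
    _ = (n ^ (3 * D + 3)) ^ t := by rw [← mul_pow, ← pow_add]

theorem nb_le {D n : ℕ} (hn : 2 ≤ n) : nb D n ≤ 2 * n := by
  unfold nb
  have : n / (D * Nat.log 2 n) ≤ n := Nat.div_le_self _ _
  omega

open Classical in
theorem universal_advice (D B : ℕ) (hD : 1 ≤ D) :
    ∃ (C : ℕ) (F : ℕ → List Bool → List ℕ), PolyTimeListAdv F ∧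
      (∀ (p : ℕ) (w : List Bool), (F p w).length = p.size ^ C) ∧
      ∃ n₀ : ℕ, ∀ n : ℕ, n₀ ≤ n →
        2 ^ n * #{w : Fin (nb D n * (2 * n)) → Bool | ∃ p : ℕ, p.Prime ∧ p.size = n ∧
          ¬ (p.size ^ B * #{i ∈ range (F p (List.ofFn w)).length |
            ¬ IsPrimRoot p ((F p (List.ofFn w)).getD i 0)} ≤ (F p (List.ofFn w)).length)} ≤
          2 ^ (nb D n * (2 * n)) := by
  set K := 3 * D + 3 with hK
  set C := (K + 4) + 0 + B + 2 with hC
  obtain ⟨p₀, hp₀⟩ := pow_size_lt K
  refine ⟨C, fun p w => candsS C p (advList (2 * p.size) (p.size ^ K) w), ?_,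
    fun p w => length_candsS _ _ _, p₀.size + 2, fun n hn => ?_⟩
  · refine polyTimeListAdv_of ?_
    refine poly_candsS C (NPC.Poly.fst NPC.Poly.id) (poly_advList ?_ ?_ (NPC.Poly.snd NPC.Poly.id))
    · exact UPoly.mul (UPoly.const 2) (upoly_size.comp (NPC.Poly.fst NPC.Poly.id))
    · exact (upoly_sizepow K).comp (NPC.Poly.fst NPC.Poly.id)
  have hn2 : 2 ≤ n := by omega
  set t := nb D n with ht
  set N := 2 * n with hN
  set k := n ^ K with hk
  have hk2 : 2 ≤ k := by
    calc 2 ≤ n := hn2
      _ = n ^ 1 := (pow_one n).symm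
      _ ≤ n ^ K := Nat.pow_le_pow_right (by omega) (by omega)
  -- the bad strings
  have hsub : ({w : Fin (t * N) → Bool | ∃ p : ℕ, p.Prime ∧ p.size = n ∧
          ¬ (p.size ^ B * #{i ∈ range (candsS C p
            (advList (2 * p.size) (p.size ^ K) (List.ofFn w))).length |
            ¬ IsPrimRoot p ((candsS C p (advList (2 * p.size) (p.size ^ K)
              (List.ofFn w))).getD i 0)} ≤ (candsS C p (advList (2 * p.size) (p.size ^ K)
              (List.ofFn w))).length)} : Finset (Fin (t * N) → Bool)) ⊆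
      ((range (2 ^ n)).filter fun p => p.Prime ∧ p.size = n).biUnion fun p =>
        ({w : Fin (t * N) → Bool | listGroup p (advList N k (List.ofFn w)) ≠ ⊤} :
          Finset (Fin (t * N) → Bool)) := by
    intro w hw
    obtain ⟨p, hpp, hps, hbad⟩ := (mem_filter.1 hw).2
    haveI : Fact p.Prime := ⟨hpp⟩
    rw [mem_biUnion]
    refine ⟨p, ?_, ?_⟩
    · rw [mem_filter, mem_range]
      exact ⟨by rw [← hps]; exact Nat.lt_size_self p, hpp, hps⟩
    · rw [mem_filter]
      refine ⟨mem_univ _, fun htop => hbad ?_⟩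
      have e : advList (2 * p.size) (p.size ^ K) (List.ofFn w) = advList N k (List.ofFn w) := by
        rw [hps]
      rw [e]
      have hlen : (candsS C p (advList N k (List.ofFn w))).length = p.size ^ C :=
        length_candsS _ _ _
      simp only [hlen]
      have h3 := coreS C p hpp (advList N k (List.ofFn w))
      have h4 : (advList N k (List.ofFn w)).length ≤ p.size ^ (K + 4) + p.size ^ 0 := by
        rw [length_advList, List.length_ofFn, hps]
        have h5 : t ≤ 2 * n := nb_le hn2
        calc t * N * k ≤ (2 * n) * (2 * n) * n ^ K :=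
              Nat.mul_le_mul_right _ (Nat.mul_le_mul_right _ h5)
          _ ≤ (n * n) * (n * n) * n ^ K := by
              refine Nat.mul_le_mul_right _ (Nat.mul_le_mul ?_ ?_)
              · exact Nat.mul_le_mul_right _ hn2
              · exact Nat.mul_le_mul_right _ hn2
          _ = n ^ (K + 4) := by ring
          _ ≤ n ^ (K + 4) + n ^ 0 := Nat.le_add_right _ _
      have h5 := fits (n := p.size) (A := K + 4) (A' := 0) (B := B) (two_le_size hpp) h4 h3
      refine le_trans (Nat.mul_le_mul_left _ (card_le_card ?_)) h5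
      intro i hi
      rw [mem_filter] at hi ⊢
      refine ⟨hi.1, fun hg => hi.2 ?_⟩
      rw [genS_iff, htop] at hg
      exact prim_of_generates hg
  have hbad : k ^ t * #(((range (2 ^ n)).filter fun p => p.Prime ∧ p.size = n).biUnion fun p =>
        ({w : Fin (t * N) → Bool | listGroup p (advList N k (List.ofFn w)) ≠ ⊤} :
          Finset (Fin (t * N) → Bool))) ≤ 2 ^ n * (n * (8 ^ t * 2 ^ (t * N))) := by
    calc k ^ t * #(((range (2 ^ n)).filter fun p => p.Prime ∧ p.size = n).biUnion fun p =>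
        ({w : Fin (t * N) → Bool | listGroup p (advList N k (List.ofFn w)) ≠ ⊤} :
          Finset (Fin (t * N) → Bool)))
        ≤ k ^ t * ∑ p ∈ (range (2 ^ n)).filter fun p => p.Prime ∧ p.size = n,
          #({w : Fin (t * N) → Bool | listGroup p (advList N k (List.ofFn w)) ≠ ⊤} :
            Finset (Fin (t * N) → Bool)) := Nat.mul_le_mul_left _ card_biUnion_le
      _ = ∑ p ∈ (range (2 ^ n)).filter fun p => p.Prime ∧ p.size = n,
          k ^ t * #({w : Fin (t * N) → Bool | listGroup p (advList N k (List.ofFn w)) ≠ ⊤} :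
            Finset (Fin (t * N) → Bool)) := by rw [mul_sum]
      _ ≤ ∑ p ∈ (range (2 ^ n)).filter fun p => p.Prime ∧ p.size = n,
          n * (8 ^ t * 2 ^ (t * N)) := by
          refine sum_le_sum fun p hp => ?_
          obtain ⟨hp1, hpp, hps⟩ := mem_filter.1 hp
          haveI : Fact p.Prime := ⟨hpp⟩
          have hpp0 : p₀ ≤ p := by
            by_contra hcon
            push Not at hcon
            have := Nat.size_le_size hcon.le
            omega
          have hkp : k ≤ p := by
            have := (hp₀ p hpp0).le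
            rwa [hps] at this
          have hpN : p ≤ 2 ^ N := by
            have h1 := (mem_range.1 hp1).le
            exact h1.trans (Nat.pow_le_pow_right (by norm_num) (by omega))
          have := card_badAdv_prime (p := p) (t := t) (N := N) hk2 hkp hpN (by omega)
          rwa [hps] at this
      _ = #((range (2 ^ n)).filter fun p => p.Prime ∧ p.size = n) *
          (n * (8 ^ t * 2 ^ (t * N))) := by rw [sum_const, smul_eq_mul]
      _ ≤ 2 ^ n * (n * (8 ^ t * 2 ^ (t * N))) := by
          refine Nat.mul_le_mul_right _ ?_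
          exact (card_filter_le _ _).trans (by rw [card_range])
  have hfit := nb_fits hD hn2
  rw [← ht, ← hK, ← hk] at hfit
  set X := #(((range (2 ^ n)).filter fun p => p.Prime ∧ p.size = n).biUnion fun p =>
        ({w : Fin (t * N) → Bool | listGroup p (advList N k (List.ofFn w)) ≠ ⊤} :
          Finset (Fin (t * N) → Bool))) with hX
  have h1 : 8 ^ n * 8 ^ t * X ≤ 2 ^ n * (n * (8 ^ t * 2 ^ (t * N))) :=
    (Nat.mul_le_mul_right _ hfit).trans hbad
  have h2 : (4 ^ n * 8 ^ t) * (2 ^ n * X) ≤ (4 ^ n * 8 ^ t) * 2 ^ (t * N) := by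
    have e8 : (8 : ℕ) ^ n = 4 ^ n * 2 ^ n := by rw [← mul_pow]; norm_num
    have hn4 : n ≤ 2 ^ n := Nat.lt_two_pow_self.le
    calc (4 ^ n * 8 ^ t) * (2 ^ n * X) = 8 ^ n * 8 ^ t * X := by rw [e8]; ring
      _ ≤ 2 ^ n * (n * (8 ^ t * 2 ^ (t * N))) := h1
      _ ≤ 2 ^ n * (2 ^ n * (8 ^ t * 2 ^ (t * N))) :=
          Nat.mul_le_mul_left _ (Nat.mul_le_mul_right _ hn4)
      _ = (4 ^ n * 8 ^ t) * 2 ^ (t * N) := by
          have e4 : (4 : ℕ) ^ n = 2 ^ n * 2 ^ n := by rw [← mul_pow]; norm_num
          rw [e4]; ring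
  have h3 := Nat.le_of_mul_le_mul_left h2 (by positivity)
  exact (Nat.mul_le_mul_left _ (card_le_card hsub)).trans h3

end Pool.Agent.R562.PR
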