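import Pool.Agent.R562.PR.Second

/-!
# Few intervals `u, …, u + k - 1` do not generate `(ℤ/p)ˣ`
-/

set_option autoImplicit false

namespace Pool.Agent.R562.PR

open Finset ComplexConjugate Pool.Agent.NPC Pool.Agent.H595R2.PR

/-- the numbers `u, …, u + k - 1` -/
def interval (u k : ℕ) : List ℕ := (List.range k).map (u + ·)

/-- no `l`-th power nonresidue among `u, …, u + k - 1` -/
def AllRes (p l k : ℕ) (u : ZMod p) : Prop :=
  ∀ i < k, u + (i : ZMod p) = 0 ∨ (u + (i : ZMod p)) ^ ((p - 1) / l) = 1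

section

variable {p : ℕ} [hp : Fact p.Prime]

/-- a nontrivial character which is trivial on the `l`-th powers -/
theorem exists_char {l : ℕ} (hl : l.Prime) (hd : l ∣ p - 1) :
    ∃ χ : MulChar (ZMod p) ℂ, χ ≠ 1 ∧
      ∀ x : ZMod p, x ≠ 0 → x ^ ((p - 1) / l) = 1 → χ x = 1 := by
  set H : Subgroup (ZMod p)ˣ := (powMonoidHom ((p - 1) / l) : (ZMod p)ˣ →* (ZMod p)ˣ).ker with hH
  have hp1 : 0 < p - 1 := by have := hp.out.one_lt; omega
  obtain ⟨u, hu⟩ : ∃ u : (ZMod p)ˣ, u ∉ H := by
    by_contra hcon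
    push Not at hcon
    obtain ⟨g, hg⟩ := IsCyclic.exists_generator (α := (ZMod p)ˣ)
    have h1 : orderOf g = p - 1 :=
      Pool.Agent.TH668.PR.prim_of_top (by
        rw [Subgroup.eq_top_iff']
        exact hg)
    have h2 : g ^ ((p - 1) / l) = 1 := by
      have := hcon g
      rwa [hH, MonoidHom.mem_ker] at this
    have h3 := orderOf_dvd_of_pow_eq_one h2
    rw [h1] at h3
    have h4 : 0 < (p - 1) / l := Nat.div_pos (Nat.le_of_dvd hp1 hd) hl.pos
    have h5 := Nat.le_of_dvd h4 h3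
    have h6 : (p - 1) / l < p - 1 := Nat.div_lt_self hp1 hl.one_lt
    omega
  have hu1 : (QuotientGroup.mk u : (ZMod p)ˣ ⧸ H) ≠ 1 := by
    intro h1
    exact hu ((QuotientGroup.eq_one_iff u).1 h1)
  obtain ⟨psi, hpsi⟩ := CommGroup.exists_apply_ne_one_of_hasEnoughRootsOfUnity
    ((ZMod p)ˣ ⧸ H) ℂ hu1
  refine ⟨MulChar.ofUnitHom (psi.comp (QuotientGroup.mk' H)), ?_, ?_⟩
  · intro h1
    apply hpsi
    have h2 := congrArg (fun χ : MulChar (ZMod p) ℂ => χ (u : ZMod p)) h1
    simp only [MulChar.ofUnitHom_coe, MulChar.one_apply_coe] at h2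
    exact Units.ext h2
  · intro x hx hx1
    have hv : ((Units.mk0 x hx : (ZMod p)ˣ) : ZMod p) = x := rfl
    rw [← hv, MulChar.ofUnitHom_coe]
    have hmem : (Units.mk0 x hx : (ZMod p)ˣ) ∈ H := by
      rw [hH, MonoidHom.mem_ker]
      apply Units.ext
      simpa using hx1
    have h1 : (QuotientGroup.mk' H) (Units.mk0 x hx) = 1 :=
      (QuotientGroup.eq_one_iff _).2 hmem
    rw [MonoidHom.comp_apply, h1, map_one]
    rfl

open Classical in
/-- few intervals without nonresidues -/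
theorem card_allRes {l k : ℕ} (hl : l.Prime) (hd : l ∣ p - 1) (hk2 : 2 ≤ k) (hk : k ≤ p) :
    k * #{u : ZMod p | AllRes p l k u} ≤ 4 * p := by
  obtain ⟨χ, hχ, hχ1⟩ := exists_char hl hd
  have h1 := second_moment χ hχ hk
  have hlow : ∀ u : ZMod p, AllRes p l k u →
      ((k : ℝ) - 1) ^ 2 ≤ ‖∑ i ∈ range k, χ (u + i)‖ ^ 2 := by
    intro u hu
    have hkr : (2 : ℝ) ≤ k := by exact_mod_cast hk2
    have h2 : (k : ℝ) - 1 ≤ ‖∑ i ∈ range k, χ (u + i)‖ := by
      have h3 : ∑ i ∈ range k, χ (u + i) =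
          ((#((range k).filter fun i : ℕ => u + (i : ZMod p) ≠ 0) : ℕ) : ℂ) := by
        rw [card_filter]
        push_cast
        refine sum_congr rfl fun i hi => ?_
        by_cases h0 : u + (i : ZMod p) = 0
        · rw [h0, if_neg (not_not.2 rfl)]
          exact χ.map_nonunit not_isUnit_zero
        · rw [if_pos h0]
          rcases hu i (mem_range.1 hi) with h4 | h4
          · exact absurd h4 h0
          · exact hχ1 _ h0 h4
      rw [h3, Complex.norm_natCast]
      have h5 : #((range k).filter fun i : ℕ => ¬ (u + (i : ZMod p) ≠ 0)) ≤ 1 := by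
        rw [card_le_one]
        intro i hi j hj
        rw [mem_filter, mem_range, not_not] at hi hj
        have h6 : ((i : ℕ) : ZMod p) = ((j : ℕ) : ZMod p) := by
          have := hi.2.trans hj.2.symm
          exact add_left_cancel this
        have h7 := (ZMod.natCast_eq_natCast_iff' i j p).1 h6
        rwa [Nat.mod_eq_of_lt (by omega), Nat.mod_eq_of_lt (by omega)] at h7
      have h6 := card_filter_add_card_filter_not (s := range k)
        (fun i : ℕ => u + (i : ZMod p) ≠ 0)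
      rw [card_range] at h6
      have h7 : k - 1 ≤ #((range k).filter fun i : ℕ => u + (i : ZMod p) ≠ 0) := by omega
      have h8 : ((k - 1 : ℕ) : ℝ) ≤ (#((range k).filter fun i : ℕ => u + (i : ZMod p) ≠ 0) : ℕ) := by
        exact_mod_cast h7
      rwa [Nat.cast_sub (by omega), Nat.cast_one] at h8
    exact pow_le_pow_left₀ (by linarith) h2 2
  have h3 : (#{u : ZMod p | AllRes p l k u} : ℝ) * ((k : ℝ) - 1) ^ 2 ≤ k * p := by
    refine le_trans ?_ h1
    rw [← nsmul_eq_mul, ← sum_const]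
    refine (sum_le_sum fun u hu => hlow u (mem_filter.1 hu).2).trans ?_
    exact sum_le_sum_of_subset_of_nonneg (filter_subset _ _) fun _ _ _ => by positivity
  have hkr : (2 : ℝ) ≤ k := by exact_mod_cast hk2
  have h4 : (k : ℝ) ^ 2 ≤ 4 * ((k : ℝ) - 1) ^ 2 := by nlinarith
  have h5 : (k : ℝ) * (k * #{u : ZMod p | AllRes p l k u}) ≤ k * (4 * p) := by
    have h6 : (0 : ℝ) ≤ (#{u : ZMod p | AllRes p l k u} : ℝ) := Nat.cast_nonneg _
    nlinarith
  have h6 := le_of_mul_le_mul_left h5 (by linarith)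
  exact_mod_cast h6

/-- If an interval does not generate the group, then it consists of `l`-th power residues. -/
theorem exists_allRes {s : List ℕ} (h : listGroup p s ≠ ⊤) :
    ∃ l, l.Prime ∧ l ∣ p - 1 ∧ ∀ x ∈ s, (x : ZMod p) = 0 ∨ (x : ZMod p) ^ ((p - 1) / l) = 1 := by
  have hi : (listGroup p s).index ≠ 1 := fun h1 => h (Subgroup.index_eq_one.1 h1)
  obtain ⟨l, hl, hd⟩ := Nat.exists_prime_and_dvd hi
  refine ⟨l, hl, Pool.Agent.TH668.PR.dvd_sub_one _ hd, fun x hx => ?_⟩
  by_contra hcon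
  push Not at hcon
  exact not_dvd_of_has _ le_rfl hl.pos ⟨x, hx, hcon.1, hcon.2⟩ hd

theorem allRes_of_interval {l k u : ℕ}
    (h : ∀ x ∈ interval u k, (x : ZMod p) = 0 ∨ (x : ZMod p) ^ ((p - 1) / l) = 1) :
    AllRes p l k (u : ZMod p) := by
  intro i hi
  have h1 := h (u + i) (List.mem_map.2 ⟨i, List.mem_range.2 hi, rfl⟩)
  rwa [Nat.cast_add] at h1

theorem card_primeFactors_sub_one : #(p - 1).primeFactors ≤ p.size := by
  refine card_primeFactors_le (by have := hp.out.one_lt; omega) ?_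
  exact lt_of_le_of_lt (Nat.sub_le _ _) (Nat.lt_size_self p)

open Classical in
/-- few intervals do not generate the group -/
theorem card_bad {k : ℕ} (hk2 : 2 ≤ k) (hk : k ≤ p) :
    k * #{u ∈ range p | listGroup p (interval u k) ≠ ⊤} ≤ 4 * p * p.size := by
  have h1 : {u ∈ range p | listGroup p (interval u k) ≠ ⊤} ⊆
      (p - 1).primeFactors.biUnion fun l => (range p).filter fun u : ℕ => AllRes p l k (u : ZMod p) := by
    intro u hu
    rw [mem_filter] at hu
    obtain ⟨l, hl, hd, h⟩ := exists_allRes hu.2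
    rw [mem_biUnion]
    refine ⟨l, ?_, ?_⟩
    · rw [Nat.mem_primeFactors]
      exact ⟨hl, hd, by have := hp.out.one_lt; omega⟩
    · rw [mem_filter]
      exact ⟨hu.1, allRes_of_interval h⟩
  have h2 : ∀ l ∈ (p - 1).primeFactors,
      k * #((range p).filter fun u : ℕ => AllRes p l k (u : ZMod p)) ≤ 4 * p := by
    intro l hl
    rw [Nat.mem_primeFactors] at hl
    refine le_trans (Nat.mul_le_mul_left _ ?_) (card_allRes hl.1 hl.2.1 hk2 hk)
    refine card_le_card_of_injOn (fun u : ℕ => (u : ZMod p)) ?_ ?_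
    · intro u hu
      have hu' := (mem_filter.1 (mem_coe.1 hu)).2
      exact mem_coe.2 (mem_filter.2 ⟨mem_univ _, hu'⟩)
    · intro u hu v hv huv
      have hu' := mem_range.1 (mem_filter.1 (mem_coe.1 hu)).1
      have hv' := mem_range.1 (mem_filter.1 (mem_coe.1 hv)).1
      have h1 := (ZMod.natCast_eq_natCast_iff' u v p).1 huv
      rwa [Nat.mod_eq_of_lt hu', Nat.mod_eq_of_lt hv'] at h1
  calc k * #{u ∈ range p | listGroup p (interval u k) ≠ ⊤}
      ≤ k * ∑ l ∈ (p - 1).primeFactors, #((range p).filter fun u : ℕ => AllRes p l k (u : ZMod p)) :=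
        Nat.mul_le_mul_left _ ((card_le_card h1).trans card_biUnion_le)
    _ = ∑ l ∈ (p - 1).primeFactors, k * #((range p).filter fun u : ℕ => AllRes p l k (u : ZMod p)) := by
        rw [mul_sum]
    _ ≤ ∑ l ∈ (p - 1).primeFactors, 4 * p := sum_le_sum h2
    _ = #(p - 1).primeFactors * (4 * p) := by rw [sum_const, smul_eq_mul]
    _ ≤ p.size * (4 * p) := Nat.mul_le_mul_right _ card_primeFactors_sub_one
    _ = 4 * p * p.size := by ring

end

end Pool.Agent.R562.PR
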