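import Pool.Agent.H595R2.PR.Core

/-!
# Lists of candidates attached to an arbitrary list of numbers

Generalisation of `Pool.Agent.H595R2.PR.cands` (where the list is `1, …, n ^ A`) to an arbitrary list
`s`: almost all candidates generate the subgroup of `(ℤ/p)ˣ` generated by the entries of `s`.
-/

set_option autoImplicit false

namespace Pool.Agent.R562.PR

open Finset Pool.Agent.NPC Pool.Agent.H595R2.PR

/-- the residue of `x`, replaced by `1` if it is `0` -/
def nz (p x : ℕ) : ℕ := if md p x = 0 then md p 1 else md p x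

/-- `∏_i s_i ^ (a ^ i)` modulo `p`, by Horner's rule -/
def hornerS (p : ℕ) (s : List ℕ) (a : ℕ) : ℕ :=
  s.foldr (fun x acc => md p (nz p x * pw p acc a)) (md p 1)

/-- a number among `x ^ (N / l ^ ∞)`, `x ∈ s`, `N = p - 1`, of maximal order -/
def bestS (p n l : ℕ) (s : List ℕ) : ℕ :=
  (s.map fun x => pw p (nz p x) (strip l n (p - 1))).foldl
    (fun b x => if better p n l b x then x else b) (md p 1)

/-- the part for the small primes -/
def smallS (p n L : ℕ) (s : List ℕ) : ℕ :=
  (List.range (L + 1)).foldl (fun acc l => if isPr l then md p (acc * bestS p n l s) else acc)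
    (md p 1)

/-- the candidate with index `a` -/
def candS (p n L : ℕ) (s : List ℕ) (a : ℕ) : ℕ :=
  md p (smallS p n L s * kill p n L (hornerS p s a))

/-- the list of candidates -/
def candsS (C p : ℕ) (s : List ℕ) : List ℕ :=
  (List.range (p.size ^ C)).map (candS p p.size (p.size ^ C) s)

/-- the subgroup of `(ℤ/p)ˣ` generated by the entries of the list `s` which are prime to `p` -/
def listGroup (p : ℕ) (s : List ℕ) : Subgroup (ZMod p)ˣ :=
  Subgroup.closure {u | ∃ x ∈ s, (u : ZMod p) = (x : ZMod p)}

section cor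

variable {p : ℕ} [hp : Fact p.Prime]

open Classical in
/-- the unit -/
noncomputable def un (p : ℕ) [Fact p.Prime] (x : ℕ) : (ZMod p)ˣ :=
  if h : (x : ZMod p) ≠ 0 then Units.mk0 _ h else 1

theorem un_val {x : ℕ} (h : (x : ZMod p) ≠ 0) : ((un p x : (ZMod p)ˣ) : ZMod p) = x := by
  unfold un
  rw [dif_pos h, Units.val_mk0]

theorem un_zero {x : ℕ} (h : (x : ZMod p) = 0) : (un p x : (ZMod p)ˣ) = 1 := by
  unfold un
  rw [dif_neg (not_not.2 h)]

theorem nz_val (x : ℕ) : ((nz p x : ℕ) : ZMod p) = ((un p x : (ZMod p)ˣ) : ZMod p) := by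
  unfold nz
  by_cases h : (x : ZMod p) = 0
  · have h1 : md p x = 0 := by
      have := cor_md (p := p) x
      rw [h, ZMod.natCast_eq_zero_iff] at this
      exact Nat.eq_zero_of_dvd_of_lt this (cor_md_lt x)
    rw [if_pos h1, cor_md, un_zero h]
    simp
  · have h1 : md p x ≠ 0 := by
      intro h1
      have := cor_md (p := p) x
      rw [h1] at this
      exact h (by rw [← this]; simp)
    rw [if_neg h1, cor_md, un_val h]

/-- the units of a list -/
noncomputable def ut (p : ℕ) [Fact p.Prime] (s : List ℕ) (i : ℕ) : (ZMod p)ˣ := un p (s.getD i 0)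

theorem hornerS_val (s : List ℕ) (a : ℕ) :
    ((hornerS p s a : ℕ) : ZMod p) =
      ((∏ j ∈ range s.length, ut p s j ^ (a ^ j) : (ZMod p)ˣ) : ZMod p) := by
  induction s with
  | nil => simp [hornerS, cor_md]
  | cons x s ih =>
    have h1 : hornerS p (x :: s) a = md p (nz p x * pw p (hornerS p s a) a) := rfl
    rw [h1, cor_md, Nat.cast_mul, cor_pw, ih, nz_val, List.length_cons, prod_range_succ', pow_zero,
      pow_one]
    have h2 : ut p (x :: s) 0 = un p x := rfl
    have h3 : ∀ j, ut p (x :: s) (j + 1) = ut p s j := fun j => rfl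
    rw [h2, Units.val_mul, mul_comm, ← Units.val_pow_eq_pow_val, ← prod_pow]
    congr 2
    refine prod_congr rfl fun j _ => ?_
    rw [h3, ← pow_mul, pow_succ]

theorem closure_eq (s : List ℕ) :
    listGroup p s = Subgroup.closure (ut p s '' Set.Iio s.length) := by
  unfold listGroup
  apply le_antisymm
  · rw [Subgroup.closure_le]
    rintro u ⟨x, hx, hu⟩
    obtain ⟨i, hi, hxi⟩ := List.getElem_of_mem hx
    refine Subgroup.subset_closure ⟨i, hi, ?_⟩
    have hne : (x : ZMod p) ≠ 0 := by rw [← hu]; exact u.ne_zero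
    apply Units.ext
    unfold ut
    rw [List.getD_eq_getElem _ _ hi, hxi, un_val hne, hu]
  · rw [Subgroup.closure_le]
    rintro _ ⟨i, hi, rfl⟩
    unfold ut
    rw [List.getD_eq_getElem _ _ hi]
    by_cases h : ((s[i] : ℕ) : ZMod p) = 0
    · rw [un_zero h]
      exact Subgroup.one_mem _
    · exact Subgroup.subset_closure ⟨s[i], List.getElem_mem _, un_val h⟩

open Classical in
/-- the selected element -/
noncomputable def utb (p : ℕ) [Fact p.Prime] (n : ℕ) (s : List ℕ) (l : ℕ) : (ZMod p)ˣ :=
  ((List.range s.length).map fun i => ut p s i ^ (strip l n (p - 1))).foldl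
      (fun b x => if (∃ k ≤ n, b ^ (l ^ k) = 1 ∧ x ^ (l ^ k) ≠ 1) then x else b) 1

theorem bestS_val (n : ℕ) (s : List ℕ) (l : ℕ) :
    ((bestS p n l s : ℕ) : ZMod p) = ((utb p n s l : (ZMod p)ˣ) : ZMod p) := by
  unfold bestS utb
  apply cor_fold
  · have e : s.map (fun x => pw p (nz p x) (strip l n (p - 1))) =
        (List.range s.length).map (fun i => pw p (nz p (s.getD i 0)) (strip l n (p - 1))) := by
      apply List.ext_getElem
      · simp
      · intro i h1 h2
        rw [List.length_map] at h1
        rw [List.getElem_map, List.getElem_map, List.getElem_range, List.getD_eq_getElem _ _ h1]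
    rw [e, List.forall₂_map_left_iff, List.forall₂_map_right_iff, List.forall₂_same]
    intro i _
    refine ⟨cor_pw_lt _ _, ?_⟩
    rw [cor_pw, Units.val_pow_eq_pow_val, nz_val]
    rfl
  · exact cor_md_lt 1
  · rw [cor_md]; simp

theorem smallS_val (n L : ℕ) (s : List ℕ) :
    ((smallS p n L s : ℕ) : ZMod p) =
      ((∏ l ∈ (range (L + 1)).filter Nat.Prime, utb p n s l : (ZMod p)ˣ) : ZMod p) := by
  unfold smallS
  rw [prod_filter]
  generalize L + 1 = K
  induction K with
  | zero => simp [cor_md]
  | succ K ih =>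
    rw [List.range_succ, List.foldl_append, List.foldl_cons, List.foldl_nil, prod_range_succ]
    by_cases hK : K.Prime
    · rw [if_pos ((isPr_iff K).2 hK), if_pos hK, cor_md, Nat.cast_mul, ih, bestS_val,
        Units.val_mul]
    · rw [if_neg (fun h => hK ((isPr_iff K).1 h)), if_neg hK, mul_one, ih]

/-- The candidate, as an element of the group `(ℤ/p)ˣ`. -/
theorem candS_eq {n L : ℕ} (s : List ℕ) (hn : p < 2 ^ n) :
    ∃ (b : ℕ → (ZMod p)ˣ) (E : ℕ),
      (∀ l, l.Prime → l ≤ L → orderOf (b l) = l ^ (Nat.card (listGroup p s)).factorization l) ∧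
      (∀ l, l.Prime → l ≤ L → l ^ (Nat.card (listGroup p s)).factorization l ∣ E) ∧
      (∀ l, l.Prime → l ∣ E → l ≤ L) ∧
      ∀ a, ((candS p n L s a : ℕ) : ZMod p) =
        (((∏ l ∈ (range (L + 1)).filter Nat.Prime, b l) *
          (∏ i ∈ range s.length, ut p s i ^ (a ^ i)) ^ E : (ZMod p)ˣ) : ZMod p) := by
  have hpp : p.Prime := Fact.out
  have hp1 : 0 < p - 1 := by have := hpp.one_lt; omega
  have hcard : Nat.card (ZMod p)ˣ = p - 1 := by
    rw [Nat.card_eq_fintype_card, ZMod.card_units]
  have hcardG : Nat.card (listGroup p s) ≤ p - 1 := by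
    rw [← hcard]
    exact Subgroup.card_le_card_group _
  have hcard0 : Nat.card (listGroup p s) ≠ 0 := Nat.card_pos.ne'
  refine ⟨utb p n s, ∏ d ∈ range L, (d + 1) ^ n, ?_, ?_, ?_, ?_⟩
  · intro l hl _
    unfold utb
    have h := best_alg (ut p s) s.length n l (strip l n (p - 1)) (listGroup p s) (closure_eq s) hl
      (by omega) (by rw [hcard]; exact strip_eq hl hp1 (by omega))
    convert h
    rfl
  · intro l hl hlL
    have hv : (Nat.card (listGroup p s)).factorization l ≤ n := by
      have h1 : l ^ (Nat.card (listGroup p s)).factorization l ≤ Nat.card (listGroup p s) :=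
        Nat.ordProj_le l hcard0
      have h2 : 2 ^ (Nat.card (listGroup p s)).factorization l ≤
          l ^ (Nat.card (listGroup p s)).factorization l := Nat.pow_le_pow_left hl.two_le _
      have h3 : 2 ^ (Nat.card (listGroup p s)).factorization l < 2 ^ n := by omega
      exact ((Nat.pow_lt_pow_iff_right (by norm_num)).1 h3).le
    refine (pow_dvd_pow l hv).trans ?_
    have hmem : l - 1 ∈ range L := by
      rw [mem_range]
      have := hl.pos
      omega
    have := dvd_prod_of_mem (fun d => (d + 1) ^ n) hmem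
    have e : l - 1 + 1 = l := Nat.sub_add_cancel hl.pos
    simpa only [e] using this
  · intro l hl hd
    obtain ⟨d, hd1, hd2⟩ := (Prime.dvd_finsetProd_iff hl.prime _).1 hd
    have h1 := hl.dvd_of_dvd_pow hd2
    have h2 := Nat.le_of_dvd (by omega) h1
    rw [mem_range] at hd1
    omega
  · intro a
    unfold candS
    rw [cor_md, Nat.cast_mul, smallS_val, cor_kill, hornerS_val, Units.val_mul,
      ← Units.val_pow_eq_pow_val]

end cor

/-- The candidate with index `a` generates the group generated by the list. -/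
def GenS (C p : ℕ) (s : List ℕ) (a : ℕ) : Prop :=
  ∃ u : (ZMod p)ˣ, (u : ZMod p) = (((candsS C p s).getD a 0 : ℕ) : ZMod p) ∧
    Subgroup.zpowers u = listGroup p s

open Classical in
/-- For every prime `p` and every list `s` all but `s.length * size p` candidates generate the
group generated by `s`. -/
theorem coreS (C p : ℕ) (hpp : p.Prime) (s : List ℕ) :
    #{a ∈ range (p.size ^ C) | ¬ GenS C p s a} ≤ s.length * p.size := by
  haveI : Fact p.Prime := ⟨hpp⟩
  obtain ⟨b, E, hb, hE, hE', hc⟩ := candS_eq (p := p) (n := p.size) (L := p.size ^ C) s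
    (Nat.lt_size_self p)
  have h1 := main_alg (ut p s) s.length (p.size ^ C) (listGroup p s) (closure_eq s) b hb E hE hE'
  have h2 : #{l ∈ (Nat.card (listGroup p s)).primeFactors | p.size ^ C < l} ≤ p.size := by
    refine (card_filter_le _ _).trans (card_primeFactors_le Nat.card_pos ?_)
    refine lt_of_le_of_lt (Subgroup.card_le_card_group _) ?_
    rw [Nat.card_eq_fintype_card, ZMod.card_units]
    exact lt_of_le_of_lt (Nat.sub_le _ _) (Nat.lt_size_self p)
  refine le_trans (card_le_card ?_) (h1.trans (Nat.mul_le_mul (Nat.sub_le _ _) h2))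
  intro a ha
  obtain ⟨ha1, ha2⟩ := mem_filter.1 ha
  refine mem_filter.2 ⟨ha1, fun hord => ha2 ⟨_, ?_, zpowers_eq_of_orderOf _ hord⟩⟩
  rw [← hc a]
  congr 1
  unfold candsS
  rw [List.getD_eq_getElem?_getD, List.getElem?_map, List.getElem?_range (by simpa using ha1)]
  rfl

theorem length_candsS (C p : ℕ) (s : List ℕ) : (candsS C p s).length = p.size ^ C := by
  simp [candsS]

end Pool.Agent.R562.PR
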