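import Pool.Agent.R562.PR.Gen

/-!
# The lists of candidates attached to polynomial-time lists are polynomial-time lists
-/

set_option autoImplicit false

namespace Pool.Agent.NPC.R562POL

open Pool.Agent.NPC Pool.Agent.H595R2.PR Pool.Agent.NPC.H595POL Pool.Agent.R562.PR

section

variable {α β : Type} [TEnc α] [TEnc β]

theorem poly_nz {p x : α → ℕ} (hp : Poly p) (hx : Poly x) : Poly (fun a => nz (p a) (x a)) :=
  Poly.ite (p := fun a => md (p a) (x a) = 0)
    (Poly.decide_eq (poly_md hp hx) (Poly.const 0)) (poly_md hp (Poly.const 1)) (poly_md hp hx)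

theorem poly_hornerS {p e : α → ℕ} {s : α → List ℕ} (hp : Poly p) (hs : Poly s) (he : Poly e) :
    Poly (fun a => hornerS (p a) (s a) (e a)) := by
  refine foldrN (l := s) (s := fun a => md (p a) 1)
    (F := fun a x acc => md (p a) (nz (p a) x * pw (p a) acc (e a)))
    (B := fun a => max (p a) 1) hs (poly_md hp (Poly.const 1)) ?_ (poly_mx hp)
    (fun a => md_le _ _) (fun a c _ x _ => md_le _ _)
  have hp' : Poly (fun q : α × ℕ × ℕ => p q.1) := hp.comp (Poly.fst Poly.id)
  have he' : Poly (fun q : α × ℕ × ℕ => e q.1) := he.comp (Poly.fst Poly.id)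
  exact poly_md hp' (Poly.mul (poly_nz hp' (Poly.fst (Poly.snd Poly.id)))
    (poly_pw hp' (Poly.snd (Poly.snd Poly.id)) he'))

theorem poly_bestS {p n l : α → ℕ} {s : α → List ℕ} (hp : Poly p) (hn : UPoly n) (hl : Poly l)
    (hs : Poly s) : Poly (fun a => bestS (p a) (n a) (l a) (s a)) := by
  refine foldlN (l := fun a => (s a).map fun x =>
      pw (p a) (nz (p a) x) (strip (l a) (n a) (p a - 1))) (s := fun a => md (p a) 1)
    (F := fun a b x => if better (p a) (n a) (l a) b x then x else b)
    (B := fun a => max (p a) 1) ?_ (poly_md hp (Poly.const 1)) ?_ (poly_mx hp)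
    (fun a => md_le _ _) ?_
  · refine Poly.map (l := s)
      (F := fun a x => pw (p a) (nz (p a) x) (strip (l a) (n a) (p a - 1))) hs ?_
    have hp' : Poly (fun q : α × ℕ => p q.1) := hp.comp (Poly.fst Poly.id)
    exact poly_pw hp' (poly_nz hp' (Poly.snd Poly.id)) (poly_strip (hl.comp (Poly.fst Poly.id))
      (hn.comp (Poly.fst Poly.id)) (Poly.sub hp' (Poly.const 1)))
  · have hp' : Poly (fun q : α × ℕ × ℕ => p q.1) := hp.comp (Poly.fst Poly.id)
    exact Poly.ite (p := fun q : α × ℕ × ℕ => better (p q.1) (n q.1) (l q.1) q.2.1 q.2.2 = true)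
      (Poly.decide_bool (poly_better hp' (hn.comp (Poly.fst Poly.id))
        (hl.comp (Poly.fst Poly.id)) (Poly.fst (Poly.snd Poly.id)) (Poly.snd (Poly.snd Poly.id))))
      (Poly.snd (Poly.snd Poly.id)) (Poly.fst (Poly.snd Poly.id))
  · intro a x hx z hz
    obtain ⟨i, _, rfl⟩ := List.mem_map.1 hx
    split_ifs
    · exact pw_le _ _ _
    · exact hz

theorem smallS_eq (p n L : ℕ) (s : List ℕ) : smallS p n L s = (List.range (L + 1)).foldl
    (fun acc l => if isPr (min l L) then md p (acc * bestS p n l s) else acc) (md p 1) := by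
  unfold smallS
  refine List.foldl_ext _ _ _ fun b a ha => ?_
  rw [List.mem_range] at ha
  have : min a L = a := by omega
  rw [this]

theorem poly_smallS {p n L : α → ℕ} {s : α → List ℕ} (hp : Poly p) (hn : UPoly n) (hL : UPoly L)
    (hs : Poly s) : Poly (fun a => smallS (p a) (n a) (L a) (s a)) := by
  refine Poly.congr ?_ fun a => (smallS_eq _ _ _ _).symm
  refine foldlN (l := fun a => List.range (L a + 1)) (s := fun a => md (p a) 1)
    (F := fun a acc l => if isPr (min l (L a)) then md (p a) (acc * bestS (p a) (n a) l (s a))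
      else acc) (B := fun a => max (p a) 1) (UPoly.add hL (UPoly.const 1)).range
    (poly_md hp (Poly.const 1)) ?_ (poly_mx hp) (fun a => md_le _ _) ?_
  · have hp' : Poly (fun q : α × ℕ × ℕ => p q.1) := hp.comp (Poly.fst Poly.id)
    have hL' : UPoly (fun q : α × ℕ × ℕ => L q.1) := hL.comp (Poly.fst Poly.id)
    have hl : Poly (fun q : α × ℕ × ℕ => q.2.2) := Poly.snd (Poly.snd Poly.id)
    have hx : Poly (fun q : α × ℕ × ℕ => q.2.1) := Poly.fst (Poly.snd Poly.id)
    have hm : UPoly (fun q : α × ℕ × ℕ => min q.2.2 (L q.1)) :=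
      UPoly.of_le (Poly.min hl hL'.toPoly) hL' fun _ => min_le_right _ _
    exact Poly.ite (p := fun q : α × ℕ × ℕ => isPr (min q.2.2 (L q.1)) = true)
      (Poly.decide_bool (poly_isPr hm)) (poly_md hp' (Poly.mul hx
        (poly_bestS hp' (hn.comp (Poly.fst Poly.id)) hl (hs.comp (Poly.fst Poly.id))))) hx
  · intro a l _ x hx
    split_ifs
    · exact md_le _ _
    · exact hx

theorem poly_candS {p n L e : α → ℕ} {s : α → List ℕ} (hp : Poly p) (hn : UPoly n) (hL : UPoly L)
    (hs : Poly s) (he : Poly e) : Poly (fun a => candS (p a) (n a) (L a) (s a) (e a)) :=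
  poly_md hp (Poly.mul (poly_smallS hp hn hL hs) (poly_kill hp hn hL (poly_hornerS hp hs he)))

theorem poly_candsS (C : ℕ) {p : α → ℕ} {s : α → List ℕ} (hp : Poly p) (hs : Poly s) :
    Poly (fun a => candsS C (p a) (s a)) := by
  refine Poly.map (l := fun a => List.range ((p a).size ^ C))
    (F := fun a e => candS (p a) (p a).size ((p a).size ^ C) (s a) e)
    ((upoly_sizepow C).comp hp).range ?_
  have hp' : Poly (fun q : α × ℕ => p q.1) := hp.comp (Poly.fst Poly.id)
  exact poly_candS hp' (upoly_size.comp hp') ((upoly_sizepow C).comp hp')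
    (hs.comp (Poly.fst Poly.id)) (Poly.snd Poly.id)

end

end Pool.Agent.NPC.R562POL

namespace Pool.Agent.R562.PR

open Pool.Agent.NPC Pool.Agent.H595R2.PR Pool.Agent.NPC.H595POL Pool.Agent.NPC.R562POL

/-- `F` is computable in polynomial time: some function on bit strings computed by a Turing machine
(Mathlib's `TM2ComputableInPolyTime`) in polynomially many steps sends the binary digits of `p` to
the code of the list `F p`. -/
def PolyTimeList (F : ℕ → List ℕ) : Prop :=
  ∃ f : List Bool → List Bool, NPC.PolyTime f ∧ ∀ p : ℕ, f (Nat.bits p) = NPC.bits (F p)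

/-- Composition with a polynomial-time list. -/
theorem PolyTimeList.comp {S : ℕ → List ℕ} (hS : PolyTimeList S) {F : ℕ → List ℕ → List ℕ}
    (hF : NPC.Poly (fun q : ℕ × List ℕ => F q.1 q.2)) : PolyTimeList (fun p => F p (S p)) := by
  obtain ⟨f, hf, hfS⟩ := hS
  have h1 : PC (fun x : List Bool => x) (fun x : List Bool => x) f :=
    H642R2.TMSim.polyTime_toPC hf
  have h2 : PC (fun x : List Bool => x) (bits : List Bool → List Bool) f :=
    PC.comp (g := fun x => x) (f := f) PC.rawIn h1
  -- the pair `(x, f x)`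
  have h3 : PC (fun x : List Bool => x) (bits : List Bool × List Bool → List Bool)
      (fun x => (x, f x)) := PC.node PC.rawIn h2
  have h4 : NPC.Poly (fun q : List Bool × List Bool =>
      (unbits (List ℕ) q.2).elim ([] : List ℕ) (fun s => F (valB q.1) s)) := by
    have h5 := NPC.Poly.optCases (o := fun q : List Bool × List Bool => unbits (List ℕ) q.2)
      (g := fun _ => ([] : List ℕ)) (h := fun q s => F (valB q.1) s)
      (poly_unbits.comp (NPC.Poly.snd NPC.Poly.id)) (NPC.Poly.const _)
      (hF.comp (NPC.Poly.pair (NPC.Poly.valBits (NPC.Poly.fst (NPC.Poly.fst NPC.Poly.id)))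
        (NPC.Poly.snd NPC.Poly.id)))
    refine h5.congr fun q => ?_
    cases unbits (List ℕ) q.2 <;> rfl
  refine ⟨_, PC.toPolyTime_bits h4 _ h3, fun p => ?_⟩
  simp only [hfS, unbits_bits, valB_bits, Option.elim]

/-- The length of a polynomial-time list is bounded by a power of the number of digits. -/
theorem PolyTimeList.length_le {S : ℕ → List ℕ} (hS : PolyTimeList S) :
    ∃ A : ℕ, ∃ p₀ : ℕ, ∀ p : ℕ, p₀ ≤ p → (S p).length ≤ p.size ^ A := by
  obtain ⟨f, hf, hfS⟩ := hS
  have h1 : PC (fun x : List Bool => x) (fun x : List Bool => x) f :=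
    H642R2.TMSim.polyTime_toPC hf
  obtain ⟨q, hq⟩ := h1.length_le
  -- a power bound for the polynomial
  have hpoly : ∃ A n₀ : ℕ, ∀ n : ℕ, n₀ ≤ n → q.eval n ≤ n ^ A := by
    refine ⟨q.natDegree + 1, max 1 (q.eval 1), fun n hn => ?_⟩
    have hn1 : 1 ≤ n := le_trans (le_max_left _ _) hn
    have hn2 : q.eval 1 ≤ n := le_trans (le_max_right _ _) hn
    have h2 : q.eval n ≤ q.eval 1 * n ^ q.natDegree := by
      rw [Polynomial.eval_eq_sum_range, Polynomial.eval_eq_sum_range, Finset.sum_mul]
      refine Finset.sum_le_sum fun i hi => ?_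
      rw [one_pow, mul_one]
      exact Nat.mul_le_mul_left _ (Nat.pow_le_pow_right hn1 (by
        have := Finset.mem_range.1 hi; omega))
    calc q.eval n ≤ q.eval 1 * n ^ q.natDegree := h2
      _ ≤ n * n ^ q.natDegree := Nat.mul_le_mul_right _ hn2
      _ = n ^ (q.natDegree + 1) := by rw [pow_succ, mul_comm]
  obtain ⟨A, n₀, hA⟩ := hpoly
  refine ⟨A, 2 ^ n₀, fun p hp => ?_⟩
  have hsz : n₀ ≤ p.size := (Nat.lt_size.2 hp).le
  have h3 := hq (Nat.bits p)
  rw [hfS] at h3
  have h4 : (S p).length < sz (S p) := length_lt_sz _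
  have h5 : (bits (S p)).length = sz (S p) := bits_length _
  have h6 : (Nat.bits p).length = p.size := Nat.size_eq_bits_len p
  rw [h6, h5] at h3
  exact (h4.le.trans h3).trans (hA _ hsz)

end Pool.Agent.R562.PR
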