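import Pool.Agent.R562.PR.GenPol
import Pool.Agent.H595R2.PR.SIZ
import Pool.Agent.TH668.PR.Rough

/-!
# From power nonresidues to primitive roots
-/

set_option autoImplicit false

namespace Pool.Agent.R562.PR

open Finset Pool.Agent.NPC Pool.Agent.H595R2.PR Pool.Agent.NPC.H595POL Pool.Agent.NPC.R562POL

/-- the list `s` together with the numbers `1, …, Y` -/
def withSmall (Y : ℕ) (s : List ℕ) : List ℕ := s ++ (List.range Y).map (· + 1)

theorem length_withSmall (Y : ℕ) (s : List ℕ) : (withSmall Y s).length = s.length + Y := by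
  simp [withSmall]

theorem poly_withSmall {α : Type} [TEnc α] {Y : α → ℕ} {s : α → List ℕ} (hY : UPoly Y)
    (hs : NPC.Poly s) : NPC.Poly (fun a => withSmall (Y a) (s a)) := by
  refine NPC.Poly.append hs (NPC.Poly.map (l := fun a => List.range (Y a)) (F := fun _ i => i + 1)
    hY.range (NPC.Poly.succ (NPC.Poly.snd NPC.Poly.id)))

theorem Gam_le (p Y : ℕ) (s : List ℕ) : Gam p Y ≤ listGroup p (withSmall Y s) := by
  unfold Gam listGroup
  refine Subgroup.closure_mono ?_
  rintro u ⟨i, hi, hu⟩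
  refine ⟨i + 1, ?_, hu⟩
  unfold withSmall
  rw [List.mem_append, List.mem_map]
  exact Or.inr ⟨i, List.mem_range.2 hi, rfl⟩

theorem list_le (p Y : ℕ) (s : List ℕ) : listGroup p s ≤ listGroup p (withSmall Y s) := by
  unfold listGroup
  refine Subgroup.closure_mono ?_
  rintro u ⟨x, hx, hu⟩
  exact ⟨x, List.mem_append_left _ hx, hu⟩

/-- the list `s` contains an `l`-th power nonresidue -/
def HasNonresidue (p l : ℕ) (s : List ℕ) : Prop :=
  ∃ x ∈ s, (x : ZMod p) ≠ 0 ∧ (x : ZMod p) ^ ((p - 1) / l) ≠ 1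

theorem not_dvd_of_has {p l : ℕ} [Fact p.Prime] {s : List ℕ} (Γ : Subgroup (ZMod p)ˣ)
    (hΓ : listGroup p s ≤ Γ) (hl0 : 0 < l) (h : HasNonresidue p l s) : ¬ l ∣ Γ.index := by
  obtain ⟨x, hx, h0, h1⟩ := h
  intro hd
  have hmem : Units.mk0 (x : ZMod p) h0 ∈ Γ :=
    hΓ (Subgroup.subset_closure ⟨x, hx, Units.val_mk0 h0⟩)
  have h2 := Pool.Agent.TH668.PR.pow_div Γ hl0 hd hmem
  apply h1
  have h3 := congrArg Units.val h2
  simpa using h3

theorem top_of_nonresidues {p Y : ℕ} [Fact p.Prime] {s : List ℕ} (ε : ℝ)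
    (hG : (p : ℝ) ^ (1 - ε) ≤ Nat.card (Gam p Y))
    (h : ∀ l : ℕ, l.Prime → l ∣ p - 1 → (l : ℝ) < (p : ℝ) ^ ε → HasNonresidue p l s) :
    listGroup p (withSmall Y s) = ⊤ := by
  set Γ := listGroup p (withSmall Y s) with hΓ
  by_contra hne
  have hi : Γ.index ≠ 1 := fun h1 => hne (Subgroup.index_eq_one.1 h1)
  obtain ⟨l, hl, hd⟩ := Nat.exists_prime_and_dvd hi
  have hcard : (p : ℝ) ^ (1 - ε) ≤ Nat.card Γ := by
    refine hG.trans ?_
    have := Subgroup.card_le_of_le (Gam_le p Y s)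
    exact_mod_cast this
  have h1 := Pool.Agent.TH668.PR.dvd_index_lt Γ ε hcard hd
  have h2 := Pool.Agent.TH668.PR.dvd_sub_one Γ hd
  exact not_dvd_of_has Γ (list_le p Y s) hl.pos (h l hl h2 h1) hd

/-- `g` is a primitive root modulo `p` -/
def IsPrimRoot (p g : ℕ) : Prop := orderOf (g : ZMod p) = p - 1

/-- the residue class of the number `g` modulo `p` generates the subgroup `Γ` -/
def Generates (p : ℕ) (Γ : Subgroup (ZMod p)ˣ) (g : ℕ) : Prop :=
  ∃ u : (ZMod p)ˣ, (u : ZMod p) = (g : ZMod p) ∧ Subgroup.zpowers u = Γ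

theorem prim_of_generates {p g : ℕ} [Fact p.Prime] (h : Generates p ⊤ g) : IsPrimRoot p g := by
  obtain ⟨u, hu1, hu2⟩ := h
  unfold IsPrimRoot
  rw [← hu1, orderOf_units]
  exact Pool.Agent.TH668.PR.prim_of_top hu2

theorem genS_iff {C p : ℕ} {s : List ℕ} {a : ℕ} :
    GenS C p s a ↔ Generates p (listGroup p s) ((candsS C p s).getD a 0) := Iff.rfl

/-- the exponents fit -/
theorem fits {n A A' B L : ℕ} (hn : 2 ≤ n) (hL : L ≤ n ^ A + n ^ A') {b : ℕ} (hb : b ≤ L * n) :
    n ^ B * b ≤ n ^ (A + A' + B + 2) := by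
  have h0 : 0 < n := by omega
  have h1 : n ^ A ≤ n ^ (A + A') := Nat.pow_le_pow_right h0 (by omega)
  have h2 : n ^ A' ≤ n ^ (A + A') := Nat.pow_le_pow_right h0 (by omega)
  have h3 : L ≤ n * n ^ (A + A') := by
    calc L ≤ n ^ (A + A') + n ^ (A + A') := by omega
      _ = 2 * n ^ (A + A') := by ring
      _ ≤ n * n ^ (A + A') := Nat.mul_le_mul_right _ hn
  calc n ^ B * b ≤ n ^ B * ((n * n ^ (A + A')) * n) :=
        Nat.mul_le_mul_left _ (hb.trans (Nat.mul_le_mul_right _ h3))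
    _ = n ^ (A + A' + B + 2) := by ring

theorem two_le_size {p : ℕ} (hp : p.Prime) : 2 ≤ p.size := by
  have : 1 < p.size := Nat.lt_size.2 (by simpa using hp.two_le)
  omega

open Classical in
/-- Part (B): for every polynomial-time list `S` almost all entries of another polynomial-time list
generate the same group. -/
theorem generate_same (B : ℕ) {S : ℕ → List ℕ} (hS : PolyTimeList S) :
    ∃ (C : ℕ) (F : ℕ → List ℕ), PolyTimeList F ∧ (∀ p : ℕ, (F p).length = p.size ^ C) ∧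
      ∃ p₀ : ℕ, ∀ p : ℕ, p₀ ≤ p → p.Prime →
        p.size ^ B * #{i ∈ range (F p).length |
          ¬ Generates p (listGroup p (S p)) ((F p).getD i 0)} ≤ (F p).length := by
  obtain ⟨A, p₀, hA⟩ := hS.length_le
  set C := A + 0 + B + 2 with hC
  refine ⟨C, fun p => candsS C p (S p), hS.comp (F := fun p s => candsS C p s)
    (poly_candsS C (NPC.Poly.fst NPC.Poly.id) (NPC.Poly.snd NPC.Poly.id)), fun p => length_candsS _ _ _, p₀,
    fun p hp hpp => ?_⟩
  have hlen : (candsS C p (S p)).length = p.size ^ C := length_candsS _ _ _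
  simp only [hlen]
  have h1 := coreS C p hpp (S p)
  have h2 := fits (n := p.size) (A := A) (A' := 0) (B := B) (L := (S p).length)
    (two_le_size hpp) ((hA p hp).trans (Nat.le_add_right _ _)) h1
  exact h2

open Classical in
/-- Part (A): nonresidues suffice. -/
theorem nonresidues_suffice (ε : ℝ) (hε : 0 < ε) (B : ℕ) {S : ℕ → List ℕ} (hS : PolyTimeList S) :
    ∃ (C : ℕ) (F : ℕ → List ℕ), PolyTimeList F ∧ (∀ p : ℕ, (F p).length = p.size ^ C) ∧
      ∃ p₀ : ℕ, ∀ p : ℕ, p₀ ≤ p → p.Prime →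
        (∀ l : ℕ, l.Prime → l ∣ p - 1 → (l : ℝ) < (p : ℝ) ^ ε → HasNonresidue p l (S p)) →
        p.size ^ B * #{i ∈ range (F p).length | ¬ IsPrimRoot p ((F p).getD i 0)} ≤
          (F p).length := by
  obtain ⟨A₁, p₁, hA₁⟩ := hS.length_le
  obtain ⟨A₂, hA₂⟩ := Gam_large ε hε
  obtain ⟨p₂, hp₂⟩ := hA₂ A₂ le_rfl
  set C := A₁ + A₂ + B + 2 with hC
  have hpoly : NPC.Poly (fun q : ℕ × List ℕ => candsS C q.1 (withSmall (q.1.size ^ A₂) q.2)) :=
    poly_candsS C (NPC.Poly.fst NPC.Poly.id) (poly_withSmall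
      ((upoly_sizepow A₂).comp (NPC.Poly.fst NPC.Poly.id)) (NPC.Poly.snd NPC.Poly.id))
  refine ⟨C, fun p => candsS C p (withSmall (p.size ^ A₂) (S p)),
    hS.comp (F := fun p s => candsS C p (withSmall (p.size ^ A₂) s)) hpoly,
    fun p => length_candsS _ _ _, max p₁ p₂, fun p hp hpp hnon => ?_⟩
  haveI : Fact p.Prime := ⟨hpp⟩
  have htop := top_of_nonresidues (Y := p.size ^ A₂) ε (hp₂ p (le_of_max_le_right hp) hpp) hnon
  have hlen : (candsS C p (withSmall (p.size ^ A₂) (S p))).length = p.size ^ C :=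
    length_candsS _ _ _
  simp only [hlen]
  have h1 := coreS C p hpp (withSmall (p.size ^ A₂) (S p))
  rw [length_withSmall] at h1
  have h2 := fits (n := p.size) (A := A₁) (A' := A₂) (B := B)
    (L := (S p).length + p.size ^ A₂) (two_le_size hpp)
    (Nat.add_le_add_right (hA₁ p (le_of_max_le_left hp)) _) h1
  refine le_trans (Nat.mul_le_mul_left _ (card_le_card ?_)) h2
  intro i hi
  rw [mem_filter] at hi ⊢
  refine ⟨hi.1, fun hg => hi.2 ?_⟩
  rw [genS_iff, htop] at hg
  exact prim_of_generates hg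

/-- A list whose entries generate the group contains nonresidues. -/
theorem has_of_top {p l : ℕ} [Fact p.Prime] {s : List ℕ} (h : listGroup p s = ⊤) (hl : l.Prime)
    (hd : l ∣ p - 1) : HasNonresidue p l s := by
  by_contra hcon
  have hp1 : 0 < p - 1 := by have := (Fact.out : p.Prime).one_lt; omega
  have hker : (⊤ : Subgroup (ZMod p)ˣ) ≤ (powMonoidHom ((p - 1) / l) : (ZMod p)ˣ →* _).ker := by
    rw [← h]
    unfold listGroup
    rw [Subgroup.closure_le]
    rintro u ⟨x, hx, hu⟩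
    have h0 : (x : ZMod p) ≠ 0 := by rw [← hu]; exact u.ne_zero
    by_contra h1
    apply hcon
    refine ⟨x, hx, h0, fun h2 => h1 ?_⟩
    rw [SetLike.mem_coe, MonoidHom.mem_ker]
    apply Units.ext
    simpa [hu] using h2
  obtain ⟨g, hg⟩ := IsCyclic.exists_generator (α := (ZMod p)ˣ)
  have h1 : orderOf g = p - 1 :=
    Pool.Agent.TH668.PR.prim_of_top (by
      rw [Subgroup.eq_top_iff']
      exact hg)
  have h2 : g ^ ((p - 1) / l) = 1 := by
    have := hker (Subgroup.mem_top g)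
    rwa [MonoidHom.mem_ker] at this
  have h3 := orderOf_dvd_of_pow_eq_one h2
  rw [h1] at h3
  have h4 : 0 < (p - 1) / l := Nat.div_pos (Nat.le_of_dvd hp1 hd) hl.pos
  have h5 := Nat.le_of_dvd h4 h3
  have h6 : (p - 1) / l < p - 1 := Nat.div_lt_self hp1 hl.one_lt
  omega

/-- A list which contains a primitive root generates the group. -/
theorem top_of_mem {p g : ℕ} [Fact p.Prime] {s : List ℕ} (hg : g ∈ s) (h : IsPrimRoot p g) :
    listGroup p s = ⊤ := by
  have hp1 : 0 < p - 1 := by have := (Fact.out : p.Prime).one_lt; omega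
  have h0 : (g : ZMod p) ≠ 0 := by
    intro h0
    unfold IsPrimRoot at h
    rw [h0] at h
    have : orderOf (0 : ZMod p) = 0 := by
      rw [orderOf_eq_zero_iff']
      intro n hn
      rw [zero_pow hn.ne']
      exact zero_ne_one
    omega
  rw [eq_top_iff]
  have h1 : Subgroup.zpowers (Units.mk0 (g : ZMod p) h0) = ⊤ := by
    apply Subgroup.eq_top_of_card_eq
    rw [Nat.card_zpowers, Nat.card_eq_fintype_card (α := (ZMod p)ˣ), ZMod.card_units, ← orderOf_units,
      Units.val_mk0]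
    exact h
  rw [← h1, Subgroup.zpowers_le]
  exact Subgroup.subset_closure ⟨g, hg, Units.val_mk0 h0⟩

end Pool.Agent.R562.PR
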