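import Pool.Agent.R562.PR.Count

/-!
# One random residue
-/

set_option autoImplicit false

namespace Pool.Agent.R562.PR

open Finset Pool.Agent.NPC Pool.Agent.H595R2.PR Pool.Agent.NPC.H595POL Pool.Agent.NPC.R562POL

theorem poly_interval {α : Type} [TEnc α] {u k : α → ℕ} (hu : NPC.Poly u) (hk : UPoly k) :
    NPC.Poly (fun a => interval (u a) (k a)) :=
  NPC.Poly.map (l := fun a => List.range (k a)) (F := fun a i => u a + i) hk.range
    (NPC.Poly.add (hu.comp (NPC.Poly.fst NPC.Poly.id)) (NPC.Poly.snd NPC.Poly.id))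

/-- `F` is computable in polynomial time from the pair of the binary digits of `p` and of `u`. -/
def PolyTimeList₂ (F : ℕ → ℕ → List ℕ) : Prop :=
  ∃ f : List Bool → List Bool, NPC.PolyTime f ∧
    ∀ p u : ℕ, f (NPC.pairBits (Nat.bits p) (Nat.bits u)) = NPC.bits (F p u)

theorem polyTimeList₂_of {F : ℕ → ℕ → List ℕ} (hF : NPC.Poly (fun q : ℕ × ℕ => F q.1 q.2)) :
    PolyTimeList₂ F := by
  have h1 : NPC.Poly (fun y : List Bool => F (valB (unpair y).1) (valB (unpair y).2)) :=
    hF.comp (NPC.Poly.pair (NPC.Poly.valBits (NPC.Poly.fst poly_unpair))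
      (NPC.Poly.valBits (NPC.Poly.snd poly_unpair)))
  exact ⟨_, polyTime_bits h1, fun p u => by simp only [unpair_pairBits, valB_bits]⟩

open Classical in
theorem one_residue (B : ℕ) :
    ∃ (C : ℕ) (F : ℕ → ℕ → List ℕ), PolyTimeList₂ F ∧
      (∀ p u : ℕ, (F p u).length = p.size ^ C) ∧
      ∃ p₀ : ℕ, ∀ p : ℕ, p₀ ≤ p → p.Prime →
        p.size ^ B * #{u ∈ range p | ¬ (p.size ^ B *
          #{i ∈ range (F p u).length | ¬ IsPrimRoot p ((F p u).getD i 0)} ≤
            (F p u).length)} ≤ p := by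
  set K := B + 4 with hK
  set C := K + 0 + B + 2 with hC
  obtain ⟨p₀, hp₀⟩ := pow_size_lt K
  refine ⟨C, fun p u => candsS C p (interval u (p.size ^ K)), ?_, fun p u => length_candsS _ _ _,
    p₀, fun p hp hpp => ?_⟩
  · refine polyTimeList₂_of ?_
    exact poly_candsS C (NPC.Poly.fst NPC.Poly.id) (poly_interval (NPC.Poly.snd NPC.Poly.id)
      ((upoly_sizepow K).comp (NPC.Poly.fst NPC.Poly.id)))
  haveI : Fact p.Prime := ⟨hpp⟩
  have hn := two_le_size hpp
  set n := p.size with hnn
  have hk : n ^ K ≤ p := (hp₀ p hp).le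
  have hk2 : 2 ≤ n ^ K := by
    calc 2 ≤ n := hn
      _ = n ^ 1 := (pow_one n).symm
      _ ≤ n ^ K := Nat.pow_le_pow_right (by omega) (by omega)
  have h1 := card_bad (p := p) hk2 hk
  have h2 : {u ∈ range p | ¬ (n ^ B *
      #{i ∈ range (candsS C p (interval u (n ^ K))).length |
        ¬ IsPrimRoot p ((candsS C p (interval u (n ^ K))).getD i 0)} ≤
            (candsS C p (interval u (n ^ K))).length)} ⊆
      {u ∈ range p | listGroup p (interval u (n ^ K)) ≠ ⊤} := by
    intro u hu
    rw [mem_filter] at hu ⊢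
    refine ⟨hu.1, fun htop => hu.2 ?_⟩
    have hlen : (candsS C p (interval u (n ^ K))).length = n ^ C := length_candsS _ _ _
    simp only [hlen]
    have h3 := coreS C p hpp (interval u (n ^ K))
    have hl : (interval u (n ^ K)).length = n ^ K := by simp [interval]
    rw [hl] at h3
    have h4 := fits (n := n) (A := K) (A' := 0) (B := B) (L := n ^ K) hn
      (Nat.le_add_right _ _) h3
    refine le_trans (Nat.mul_le_mul_left _ (card_le_card ?_)) h4
    intro i hi
    rw [mem_filter] at hi ⊢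
    refine ⟨hi.1, fun hg => hi.2 ?_⟩
    rw [genS_iff, htop] at hg
    exact prim_of_generates hg
  have h3 : n ^ 4 * (n ^ B * #{u ∈ range p | listGroup p (interval u (n ^ K)) ≠ ⊤}) ≤
      n ^ 4 * p := by
    calc n ^ 4 * (n ^ B * #{u ∈ range p | listGroup p (interval u (n ^ K)) ≠ ⊤})
        = n ^ K * #{u ∈ range p | listGroup p (interval u (n ^ K)) ≠ ⊤} := by
          rw [hK]; ring
      _ ≤ 4 * p * n := h1
      _ ≤ n ^ 4 * p := by
          have h5 : 4 * n ≤ n ^ 4 := by
            have h6 : 2 ^ 3 ≤ n ^ 3 := Nat.pow_le_pow_left hn 3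
            calc 4 * n ≤ 2 ^ 3 * n := Nat.mul_le_mul_right _ (by norm_num)
              _ ≤ n ^ 3 * n := Nat.mul_le_mul_right _ h6
              _ = n ^ 4 := by ring
          calc 4 * p * n = (4 * n) * p := by ring
            _ ≤ n ^ 4 * p := Nat.mul_le_mul_right _ h5
  have h4 := Nat.le_of_mul_le_mul_left h3 (by positivity)
  exact (Nat.mul_le_mul_left _ (card_le_card h2)).trans h4

end Pool.Agent.R562.PR
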