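import Pool.Agent.R562.PR.Non
import Pool.Agent.H595R2.PR.FEW

/-!
# Few intervals `u, …, u + k - 1` consist of `l`-th power residues

The second moment of short character sums is elementary: `∑_u χ(u + i) conj (χ(u + j)) = -1` for
`i ≠ j`.
-/

set_option autoImplicit false

namespace Pool.Agent.R562.PR

open Finset ComplexConjugate

variable {p : ℕ} [hp : Fact p.Prime]

/-- correlations of a nontrivial character -/
theorem corr (χ : MulChar (ZMod p) ℂ) (hχ : χ ≠ 1) {d : ZMod p} (hd : d ≠ 0) :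
    ∑ x : ZMod p, χ (x + d) * conj (χ x) = -1 := by
  classical
  have h1 : ∑ x : ZMod p, χ (x + d) * conj (χ x) =
      ∑ x ∈ univ.erase (0 : ZMod p), χ (1 + d * x⁻¹) := by
    rw [← Finset.add_sum_erase univ _ (mem_univ (0 : ZMod p))]
    have h0 : χ (0 : ZMod p) = 0 := χ.map_nonunit not_isUnit_zero
    rw [h0, map_zero, mul_zero, zero_add]
    refine sum_congr rfl fun x hx => ?_
    have hx0 : x ≠ 0 := (mem_erase.1 hx).1
    have h2 : conj (χ x) = χ x⁻¹ := by
      have h3 := MulChar.star_apply' χ x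
      rw [MulChar.inv_apply'] at h3
      exact h3
    rw [h2, ← map_mul]
    congr 1
    rw [add_mul, mul_inv_cancel₀ hx0]
  rw [h1]
  have h2 : ∑ x ∈ univ.erase (0 : ZMod p), χ (1 + d * x⁻¹) =
      ∑ z ∈ univ.erase (1 : ZMod p), χ z := by
    refine sum_nbij' (fun x => 1 + d * x⁻¹) (fun z => d * (z - 1)⁻¹) ?_ ?_ ?_ ?_ ?_
    · intro x hx
      have hx0 : x ≠ 0 := (mem_erase.1 hx).1
      rw [mem_erase]
      refine ⟨fun h => ?_, mem_univ _⟩
      have : d * x⁻¹ = 0 := by
        have := congrArg (fun t => t - 1) h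
        simpa using this
      rcases mul_eq_zero.1 this with h3 | h3
      · exact hd h3
      · exact hx0 (inv_eq_zero.1 h3)
    · intro z hz
      have hz0 : z ≠ 1 := (mem_erase.1 hz).1
      rw [mem_erase]
      refine ⟨fun h => ?_, mem_univ _⟩
      rcases mul_eq_zero.1 h with h3 | h3
      · exact hd h3
      · exact hz0 (sub_eq_zero.1 (inv_eq_zero.1 h3))
    · intro x hx
      have hx0 : x ≠ 0 := (mem_erase.1 hx).1
      simp only [add_sub_cancel_left, mul_inv, inv_inv]
      rw [← mul_assoc, mul_inv_cancel₀ hd, one_mul]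
    · intro z hz
      have hz0 : z - 1 ≠ 0 := sub_ne_zero.2 (mem_erase.1 hz).1
      simp only [mul_inv, inv_inv]
      rw [← mul_assoc, mul_inv_cancel₀ hd, one_mul]
      ring
    · intro x _
      rfl
  rw [h2]
  have h3 := MulChar.sum_eq_zero_of_ne_one hχ
  rw [← Finset.add_sum_erase univ _ (mem_univ (1 : ZMod p)), map_one] at h3
  linear_combination h3

/-- the diagonal -/
theorem diag (χ : MulChar (ZMod p) ℂ) (a : ZMod p) :
    ‖∑ x : ZMod p, χ (x + a) * conj (χ (x + a))‖ ≤ p := by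
  refine (norm_sum_le _ _).trans ?_
  have h : ∀ x ∈ (univ : Finset (ZMod p)), ‖χ (x + a) * conj (χ (x + a))‖ ≤ 1 := by
    intro x _
    rw [norm_mul, RCLike.norm_conj]
    have := DirichletCharacter.norm_le_one χ (x + a)
    have h0 := norm_nonneg (χ (x + a))
    nlinarith
  refine (sum_le_sum h).trans ?_
  simp [ZMod.card]

/-- second moment -/
theorem second_moment (χ : MulChar (ZMod p) ℂ) (hχ : χ ≠ 1) {k : ℕ} (hk : k ≤ p) :
    ∑ u : ZMod p, ‖∑ i ∈ range k, χ (u + i)‖ ^ 2 ≤ k * p := by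
  classical
  have h1 : ((∑ u : ZMod p, ‖∑ i ∈ range k, χ (u + i)‖ ^ 2 : ℝ) : ℂ) =
      ∑ i ∈ range k, ∑ j ∈ range k, ∑ u : ZMod p, χ (u + i) * conj (χ (u + j)) := by
    push_cast
    have h2 : ∀ u : ZMod p, ((‖∑ i ∈ range k, χ (u + i)‖ : ℂ)) ^ 2 =
        ∑ i ∈ range k, ∑ j ∈ range k, χ (u + i) * conj (χ (u + j)) := by
      intro u
      rw [← Complex.mul_conj', map_sum, sum_mul_sum]
    rw [sum_congr rfl fun u _ => h2 u, sum_comm]
    refine sum_congr rfl fun i _ => ?_
    rw [sum_comm]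
  have hoff : ∀ i ∈ range k, ∀ j ∈ range k, i ≠ j →
      ∑ u : ZMod p, χ (u + i) * conj (χ (u + j)) = -1 := by
    intro i hi j hj hij
    have hd : ((i : ZMod p) - j) ≠ 0 := by
      rw [sub_ne_zero]
      intro h
      have h3 := (ZMod.natCast_eq_natCast_iff' i j p).1 h
      rw [mem_range] at hi hj
      rw [Nat.mod_eq_of_lt (by omega), Nat.mod_eq_of_lt (by omega)] at h3
      exact hij h3
    have h4 := corr χ hχ hd
    rw [← h4]
    refine Fintype.sum_equiv (Equiv.addRight (j : ZMod p)) _ _ fun u => ?_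
    simp only [Equiv.coe_addRight]
    congr 2
    ring
  have h5 : ∑ i ∈ range k, ∑ j ∈ range k, ∑ u : ZMod p, χ (u + i) * conj (χ (u + j)) =
      ∑ i ∈ range k, ((∑ u : ZMod p, χ (u + i) * conj (χ (u + i))) - ((k : ℂ) - 1)) := by
    refine sum_congr rfl fun i hi => ?_
    rw [← Finset.add_sum_erase _ _ hi, sub_eq_add_neg]
    congr 1
    rw [sum_congr rfl fun j hj => hoff i hi j (mem_erase.1 hj).2 (Ne.symm (mem_erase.1 hj).1)]
    rw [sum_const, card_erase_of_mem hi, card_range, nsmul_eq_mul]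
    rw [mem_range] at hi
    rw [Nat.cast_sub (by omega : 1 ≤ k)]
    push_cast
    ring
  rw [h5] at h1
  have h6 : (∑ u : ZMod p, ‖∑ i ∈ range k, χ (u + i)‖ ^ 2 : ℝ) =
      ∑ i ∈ range k, ((∑ u : ZMod p, χ (u + i) * conj (χ (u + i))).re - ((k : ℝ) - 1)) := by
    have h7 := congrArg Complex.re h1
    rw [Complex.ofReal_re, Complex.re_sum] at h7
    rw [h7]
    refine sum_congr rfl fun i _ => ?_
    simp
  rw [h6]
  have h8 : ∀ i ∈ range k, ((∑ u : ZMod p, χ (u + i) * conj (χ (u + i))).re - ((k : ℝ) - 1)) ≤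
      (p : ℝ) := by
    intro i hi
    have h9 := (Complex.re_le_norm _).trans (diag χ (i : ZMod p))
    rw [mem_range] at hi
    have : (1 : ℝ) ≤ k := by
      have : 1 ≤ k := by omega
      exact_mod_cast this
    linarith
  refine (sum_le_sum h8).trans ?_
  rw [sum_const, card_range, nsmul_eq_mul]

end Pool.Agent.R562.PR
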